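import Pool.Agent.Results.MP_701b78_al.LeastIsTwo

set_option autoImplicit false

/-!
# A universal reversible element of the group of piecewise affine homeomorphisms of the line

There is ONE element `e` of `PL⁺(ℝ)`, conjugate to its inverse in `PL⁺(ℝ)` (and also inverted by the
reflection `x ↦ -x`), such that every element of `PL⁺(ℝ)` is a product of two conjugates of `e`; the
two conjugates can be chosen such that the product is a commutator.
-/

namespace Pool.Agent.Results.MP_701b78_al.UniversalReversible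

open Pool.Agent.Helper237 (G)
open Pool.Agent.Results.MP_701b78_al.LeastIsTwo

/-- the affine change of coordinates `x ↦ (x - 15) / 66` -/
noncomputable def A : G := G.aff (1 / 66) (-(15 / 66)) (by norm_num)

theorem A_apply (x : ℝ) : A x = (x - 15) / 66 := by
  unfold A
  rw [G.aff_apply]
  ring

theorem A_inv_apply (x : ℝ) : A⁻¹ x = 66 * x + 15 := by
  rw [G.inv_eq_iff, A_apply]
  ring

/-- the universal element -/
noncomputable def e0 : G := A * G.E * A⁻¹

theorem e0_apply (x : ℝ) : e0 x = (G.E (66 * x + 15) - 15) / 66 := by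
  unfold e0
  rw [G.mul_apply, G.mul_apply, A_inv_apply, A_apply]

theorem E_refl (z : ℝ) : G.E (30 - G.E z) = 30 - z := by
  have h1 : G.rf G.E (G.E z) = G.E⁻¹ (G.E z) := by rw [G.rfE]
  rw [G.rf_apply, G.inv_apply_self] at h1
  linarith

theorem e0_add (x : ℝ) : e0 (x + 1) = e0 x + 1 := by
  rw [e0_apply, e0_apply, show 66 * (x + 1) + 15 = 66 * x + 15 + 66 by ring, G.E_add]
  ring

theorem e0_refl (x : ℝ) : e0 (-(e0 x)) = -x := by
  rw [e0_apply, e0_apply, show 66 * -((G.E (66 * x + 15) - 15) / 66) + 15 =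
    30 - G.E (66 * x + 15) by ring, E_refl]
  ring

theorem E_rev' : Reversible G.E := ⟨G.R, G.E_rev⟩

theorem e0_rev : Reversible e0 := reversible_conj A E_rev'

/-- every element of the working group is a commutator of an element with a conjugate of `e0` -/
theorem factor' (f : G) : ∃ x y : G, f = x * y * x⁻¹ * y⁻¹ ∧ IsConj e0 y ∧ IsConj e0 y⁻¹ := by
  obtain ⟨Φ, W, h⟩ := G.main_of_bump G.bump f
  have hE : IsConj e0 G.E := by
    rw [isConj_iff]
    exact ⟨A⁻¹, by unfold e0; group⟩
  have hE' : IsConj G.E G.E⁻¹ := by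
    rw [isConj_iff]
    exact ⟨G.R, G.E_rev⟩
  have hc : IsConj G.E (Φ⁻¹ * G.E * Φ) := by
    rw [isConj_iff]
    exact ⟨Φ⁻¹, by group⟩
  have hc' : IsConj G.E⁻¹ (Φ⁻¹ * G.E * Φ)⁻¹ := by
    rw [isConj_iff]
    exact ⟨Φ⁻¹, by group⟩
  refine ⟨Φ⁻¹ * W⁻¹ * Φ, Φ⁻¹ * G.E * Φ, ?_, hE.trans hc, hE.trans (hE'.trans hc')⟩
  have h2 : f = Φ⁻¹ * (Φ * f) := by group
  rw [h2, h]
  unfold G.cm
  group

/-- **A universal reversible element.** There is one element `e` of the group of the increasing
piecewise affine homeomorphisms of the line, which commutes with `x ↦ x + 1`, is inverted by the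
reflection `x ↦ -x` and is conjugate to its inverse within the group, such that every element `f` of
the group is the product `c d` of two conjugates of `e`, and moreover of two conjugates such that `c`
is conjugate to the inverse of `d`, so that `f` is a commutator. Hence the least `m` such that every
element is a product of `m` reversible elements is two. -/
theorem result :
    (∃ e : PLplus, (∀ x : ℝ, (e : ℝ ≃ₜ ℝ) (x + 1) = (e : ℝ ≃ₜ ℝ) x + 1) ∧
      (∀ x : ℝ, (e : ℝ ≃ₜ ℝ) (-((e : ℝ ≃ₜ ℝ) x)) = -x) ∧ Reversible e ∧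
      ∀ f : PLplus, ∃ c d x : PLplus, IsConj e c ∧ IsConj e d ∧ f = c * d ∧
        c = x * d⁻¹ * x⁻¹) ∧
    IsLeast {m : ℕ | 1 ≤ m ∧ ReversibleProducts PLplus m = Set.univ} 2 := by
  refine ⟨⟨ofG e0, e0_add, e0_refl, reversible_map ofG e0_rev, ?_⟩, LeastIsTwo.result⟩
  intro f
  obtain ⟨g, rfl⟩ := ofG_surjective f
  obtain ⟨x, y, hg, h1, h2⟩ := factor' g
  have h3 : IsConj (ofG e0) (ofG y) := ofG.map_isConj h1
  have h4 : IsConj (ofG e0) (ofG y⁻¹) := ofG.map_isConj h2
  refine ⟨ofG x * ofG y * (ofG x)⁻¹, ofG y⁻¹, ofG x, ?_, h4, ?_, ?_⟩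
  · refine h3.trans ?_
    rw [isConj_iff]
    exact ⟨ofG x, rfl⟩
  · conv_lhs => rw [hg]
    rw [map_mul, map_mul, map_mul, map_inv, map_inv]
  · rw [map_inv, inv_inv]

end Pool.Agent.Results.MP_701b78_al.UniversalReversible
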